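import Mathlib
import Pool.Agent.Work.MP_66c627_co.FEnd
import Pool.Agent.Work.MP_66c627_co.FRed

/-! Cocyclic Hadamard matrices over `Z₂ × Z₂ × Z_t`, `t > 1` odd: the transgression component of the
cocycle is nontrivial.  Our own statement, with the transgression component as an element of
`Hom(H₂(G), Z₂)`. -/

set_option autoImplicit false

namespace Pool.Agent.Results.MP_66c627_co.TransgressionNontrivial

/-- A 2-cocycle `ψ : G × G → {1, -1}` for the trivial action.  No normalisation is asked for, so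
this contains the normalised cocycles of the problem (those with `ψ 1 1 = 1`). -/
def IsCocycle {G : Type} [Group G] (ψ : G → G → ℤˣ) : Prop :=
  ∀ g h k : G, ψ g h * ψ (g * h) k = ψ g (h * k) * ψ h k

/-- The cocyclic matrix `M_ψ = [ψ(g,h)]`, rows and columns indexed by `G`, with entries in `ℤ`. -/
def cocyclicMatrix {G : Type} (ψ : G → G → ℤˣ) : Matrix G G ℤ :=
  Matrix.of fun g h => ((ψ g h : ℤˣ) : ℤ)

/-- `T : H₂(G, ℤ) → {1, -1}` (the two element group, written additively) is the transgression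
component of `ψ`, i.e. the image of the class `[ψ]` under the map `H²(G, Z₂) → Hom(H₂(G), Z₂)` of
the universal coefficient theorem: the class of a 2-cycle `z = ∑ n(g,h) [g|h]` of the bar complex
is sent to the product of all `ψ(g,h) ^ n(g,h)`.  Here `H₂(G, ℤ)` is the group homology of Mathlib
with coefficients in the trivial representation `ℤ`, and `H2π` maps a 2-cycle to its class. -/
def IsTransgressionComponent {G : Type} [Group G] (ψ : G → G → ℤˣ)
    (T : groupHomology.H2 (Rep.trivial ℤ G ℤ) →+ Additive ℤˣ) : Prop :=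
  ∀ z : groupHomology.cycles₂ (Rep.trivial ℤ G ℤ),
    T (groupHomology.H2π (Rep.trivial ℤ G ℤ) z) =
      (z.1 : G × G →₀ ℤ).sum fun p n => n • Additive.ofMul (ψ p.1 p.2)

/-- the evaluation of a cochain on chains -/
noncomputable def ev {G : Type} (ψ : G → G → ℤˣ) : (G × G →₀ ℤ) →+ Additive ℤˣ where
  toFun z := z.sum fun p n => n • Additive.ofMul (ψ p.1 p.2)
  map_zero' := by simp
  map_add' x y := by
    rw [Finsupp.sum_add_index']
    · intro p; simp
    · intro p m n; rw [add_smul]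

theorem ev_single {G : Type} (ψ : G → G → ℤˣ) (p : G × G) (n : ℤ) :
    ev ψ (Finsupp.single p n) = n • Additive.ofMul (ψ p.1 p.2) := by
  change (Finsupp.single p n).sum (fun p n => n • Additive.ofMul (ψ p.1 p.2)) = _
  rw [Finsupp.sum_single_index]
  rw [zero_smul]

theorem ev_boundary {G : Type} [Group G] (ψ : G → G → ℤˣ) (hψ : IsCocycle ψ)
    (y : G × G × G →₀ ℤ) :
    ev ψ ((groupHomology.d₃₂ (Rep.trivial ℤ G ℤ)).hom y) = 0 := by
  induction y using Finsupp.induction_linear with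
  | zero => rw [map_zero, map_zero]
  | add a b ha hb => rw [map_add, map_add, ha, hb, add_zero]
  | single p n =>
    obtain ⟨g, h, k⟩ := p
    have h1 := groupHomology.d₃₂_single (A := Rep.trivial ℤ G ℤ) (g, h, k) n
    have h2 : (groupHomology.d₃₂ (Rep.trivial ℤ G ℤ)).hom (Finsupp.single (g, h, k) n) =
      Finsupp.single (h, k) n - Finsupp.single (g * h, k) n + Finsupp.single (g, h * k) n
        - Finsupp.single (g, h) n := h1
    rw [h2, map_sub, map_add, map_sub, ev_single, ev_single, ev_single, ev_single]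
    simp only []
    have h3 := hψ g h k
    have h4 : Additive.ofMul (ψ g h) + Additive.ofMul (ψ (g * h) k) =
      Additive.ofMul (ψ g (h * k)) + Additive.ofMul (ψ h k) := by
      rw [← ofMul_mul, ← ofMul_mul, h3]
    have h5 : n • Additive.ofMul (ψ g h) + n • Additive.ofMul (ψ (g * h) k) =
      n • Additive.ofMul (ψ g (h * k)) + n • Additive.ofMul (ψ h k) := by
      rw [← smul_add, h4, smul_add]
    have h6 : n • Additive.ofMul (ψ h k) - n • Additive.ofMul (ψ (g * h) k) +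
        n • Additive.ofMul (ψ g (h * k)) - n • Additive.ofMul (ψ g h) =
      (n • Additive.ofMul (ψ g (h * k)) + n • Additive.ofMul (ψ h k)) -
      (n • Additive.ofMul (ψ g h) + n • Additive.ofMul (ψ (g * h) k)) := by abel
    rw [h6, h5, sub_self]

theorem H2π_surjective {G : Type} [Group G] :
    Function.Surjective (groupHomology.H2π (Rep.trivial ℤ G ℤ)) := by
  intro x
  induction x using groupHomology.H2_induction_on with
  | h z => exact ⟨z, rfl⟩

theorem exists_component {G : Type} [Group G] (ψ : G → G → ℤˣ) (hψ : IsCocycle ψ) :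
    ∃! T, IsTransgressionComponent ψ T := by
  classical
  let F : groupHomology.cycles₂ (Rep.trivial ℤ G ℤ) →+ groupHomology.H2 (Rep.trivial ℤ G ℤ) :=
    (groupHomology.H2π (Rep.trivial ℤ G ℤ)).hom.toAddMonoidHom
  let L : groupHomology.cycles₂ (Rep.trivial ℤ G ℤ) →+ Additive ℤˣ :=
    (ev ψ).comp (groupHomology.cycles₂ (Rep.trivial ℤ G ℤ)).subtype.toAddMonoidHom
  have hF : Function.Surjective F := H2π_surjective
  have hk : F.ker ≤ L.ker := by
    intro z hz
    rw [AddMonoidHom.mem_ker] at hz ⊢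
    have h1 : groupHomology.H2π (Rep.trivial ℤ G ℤ) z = 0 := hz
    rw [groupHomology.H2π_eq_zero_iff] at h1
    obtain ⟨y, hy⟩ := h1
    change ev ψ z.1 = 0
    rw [← hy]
    exact ev_boundary ψ hψ y
  refine ⟨F.liftOfSurjective hF ⟨L, hk⟩, ?_, ?_⟩
  · intro z
    exact F.liftOfRightInverse_comp_apply _ _ ⟨L, hk⟩ z
  · intro T' hT'
    ext x
    obtain ⟨z, rfl⟩ := hF x
    have h2 : F.liftOfSurjective hF ⟨L, hk⟩ (F z) = L z :=
      F.liftOfRightInverse_comp_apply _ _ ⟨L, hk⟩ z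
    rw [h2]
    exact congrArg _ (hT' z)

theorem not_symmetric {t : ℕ} (ht : Odd t) (h1 : 1 < t)
    {G : Type} [Group G] [Fintype G] [DecidableEq G]
    (e : G ≃* Multiplicative (ZMod 2 × ZMod 2 × ZMod t))
    (ψ : G → G → ℤˣ) (hψ : IsCocycle ψ)
    (hM : cocyclicMatrix ψ * (cocyclicMatrix ψ).transpose =
      (4 * (t : ℤ)) • (1 : Matrix G G ℤ)) :
    ∃ g h, ψ g h ≠ ψ h g := by
  have : NeZero t := ⟨by omega⟩
  by_contra hcon
  push Not at hcon
  let a : ZMod 2 × ZMod 2 × ZMod t → G := fun x => e.symm (Multiplicative.ofAdd x)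
  have a0 : a 0 = 1 := by
    change e.symm (Multiplicative.ofAdd 0) = 1
    rw [ofAdd_zero, map_one]
  have aadd : ∀ x y, a (x + y) = a x * a y := by
    intro x y
    change e.symm (Multiplicative.ofAdd (x + y)) = _
    rw [ofAdd_add, map_mul]
  let E : (ZMod 2 × ZMod 2 × ZMod t) ≃ G := Multiplicative.ofAdd.trans e.symm.toEquiv
  have hE : ∀ x, E x = a x := fun x => rfl
  let φ : (ZMod 2 × ZMod 2 × ZMod t) → (ZMod 2 × ZMod 2 × ZMod t) → ℤ :=
    fun x y => ((ψ (a x) (a y) * ψ 1 1 : ℤˣ) : ℤ)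
  have hsq : ψ 1 1 * ψ 1 1 = 1 := Int.units_mul_self _
  have hv : ∀ x y, φ x y = 1 ∨ φ x y = -1 := by
    intro x y
    rcases Int.units_eq_one_or (ψ (a x) (a y) * ψ 1 1) with h | h
    · left; change ((ψ (a x) (a y) * ψ 1 1 : ℤˣ) : ℤ) = 1; rw [h]; rfl
    · right; change ((ψ (a x) (a y) * ψ 1 1 : ℤˣ) : ℤ) = -1; rw [h]; rfl
  have h0 : φ 0 0 = 1 := by
    change ((ψ (a 0) (a 0) * ψ 1 1 : ℤˣ) : ℤ) = 1
    rw [a0, hsq]; rfl
  have hc : ∀ x y z, φ x y * φ (x + y) z = φ x (y + z) * φ y z := by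
    intro x y z
    change ((ψ (a x) (a y) * ψ 1 1 : ℤˣ) : ℤ) * ((ψ (a (x + y)) (a z) * ψ 1 1 : ℤˣ) : ℤ) =
      ((ψ (a x) (a (y + z)) * ψ 1 1 : ℤˣ) : ℤ) * ((ψ (a y) (a z) * ψ 1 1 : ℤˣ) : ℤ)
    rw [aadd, aadd, ← Units.val_mul, ← Units.val_mul]
    congr 1
    have := hψ (a x) (a y) (a z)
    calc ψ (a x) (a y) * ψ 1 1 * (ψ (a x * a y) (a z) * ψ 1 1)
        = (ψ (a x) (a y) * ψ (a x * a y) (a z)) * (ψ 1 1 * ψ 1 1) := by
          rw [mul_mul_mul_comm]
      _ = (ψ (a x) (a y * a z) * ψ (a y) (a z)) * (ψ 1 1 * ψ 1 1) := by rw [this]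
      _ = _ := by rw [mul_mul_mul_comm]
  have hs : ∀ x y, φ x y = φ y x := by
    intro x y
    change ((ψ (a x) (a y) * ψ 1 1 : ℤˣ) : ℤ) = ((ψ (a y) (a x) * ψ 1 1 : ℤˣ) : ℤ)
    rw [hcon]
  have hH : Matrix.of φ * Matrix.transpose (Matrix.of φ) =
      (4 * (t : ℤ)) • (1 : Matrix (ZMod 2 × ZMod 2 × ZMod t) (ZMod 2 × ZMod 2 × ZMod t) ℤ) := by
    ext x y
    have h2 := congrFun (congrFun hM (a x)) (a y)
    rw [Matrix.mul_apply] at h2 ⊢
    simp only [Matrix.transpose_apply, Matrix.of_apply, cocyclicMatrix, Matrix.smul_apply,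
      Matrix.one_apply] at h2 ⊢
    have h3 : (∑ z, φ x z * φ y z) =
        ∑ k : G, ((ψ (a x) k : ℤˣ) : ℤ) * ((ψ (a y) k : ℤˣ) : ℤ) := by
      rw [← Equiv.sum_comp E]
      refine Finset.sum_congr rfl fun z _ => ?_
      change ((ψ (a x) (a z) * ψ 1 1 : ℤˣ) : ℤ) * ((ψ (a y) (a z) * ψ 1 1 : ℤˣ) : ℤ) = _
      rw [hE, ← Units.val_mul, ← Units.val_mul, mul_mul_mul_comm, hsq, mul_one]
    rw [h3, h2]
    have h4 : a x = a y ↔ x = y := by
      rw [← hE, ← hE]; exact E.injective.eq_iff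
    simp only [h4]
  obtain ⟨l, n, Y, W, w, hl, hY, hW, hw, hs'⟩ :=
    Pool.MP_66c627_co.Full.prRed t ht φ hv h0 hc hH hs
  exact Pool.MP_66c627_co.Full.prFin Pool.MP_66c627_co.Full.prLoc t h1 ht l n Y W w hl hY hW hw hs'

/-- Let `t > 1` be odd, `G` a group isomorphic to `Z₂ × Z₂ × Z_t` (so `|G| = 4t`) and
`ψ : G × G → {1, -1}` a 2-cocycle whose cocyclic matrix is Hadamard, `M_ψ M_ψᵀ = 4t I`.  Then the
transgression component of `ψ`, a homomorphism `H₂(G, ℤ) → {1, -1}` (it exists and is unique), is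
nontrivial, and `ψ` is not symmetric. -/
theorem result {t : ℕ} (ht : Odd t) (h1 : 1 < t)
    {G : Type} [Group G] [Fintype G] [DecidableEq G]
    (e : G ≃* Multiplicative (ZMod 2 × ZMod 2 × ZMod t))
    (ψ : G → G → ℤˣ) (hψ : IsCocycle ψ)
    (hM : cocyclicMatrix ψ * (cocyclicMatrix ψ).transpose =
      (4 * (t : ℤ)) • (1 : Matrix G G ℤ)) :
    (∃! T, IsTransgressionComponent ψ T) ∧ (∀ T, IsTransgressionComponent ψ T → T ≠ 0) ∧
      ∃ g h, ψ g h ≠ ψ h g := by
  obtain ⟨g, h, hgh⟩ := not_symmetric ht h1 e ψ hψ hM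
  refine ⟨exists_component ψ hψ, ?_, g, h, hgh⟩
  intro T hT h0
  have hcomm : g * h = h * g := by
    apply e.injective
    rw [map_mul, map_mul, mul_comm]
  let z : G × G →₀ ℤ := Finsupp.single (g, h) 1 - Finsupp.single (h, g) 1
  have hz : z ∈ groupHomology.cycles₂ (Rep.trivial ℤ G ℤ) := by
    change (groupHomology.d₂₁ (Rep.trivial ℤ G ℤ)).hom z = 0
    have h2 : ∀ x y : G, (groupHomology.d₂₁ (Rep.trivial ℤ G ℤ)).hom
        (Finsupp.single (x, y) (1 : ℤ)) = Finsupp.single y (1 : ℤ) - Finsupp.single (x * y) (1 : ℤ)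
          + Finsupp.single x (1 : ℤ) := fun x y =>
      groupHomology.d₂₁_single (A := Rep.trivial ℤ G ℤ) (x, y) (1 : ℤ)
    change (groupHomology.d₂₁ (Rep.trivial ℤ G ℤ)).hom
      (Finsupp.single (g, h) (1 : ℤ) - Finsupp.single (h, g) (1 : ℤ)) = 0
    rw [map_sub, h2, h2, hcomm]
    abel
  have h3 := hT ⟨z, hz⟩
  have h4 : (z.sum fun p n => n • Additive.ofMul (ψ p.1 p.2)) = 0 := by
    rw [← h3, h0]; rfl
  have h5 : ev ψ z = 0 := h4
  have h6 : ev ψ z = Additive.ofMul (ψ g h) - Additive.ofMul (ψ h g) := by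
    change ev ψ (Finsupp.single (g, h) 1 - Finsupp.single (h, g) 1) = _
    rw [map_sub, ev_single, ev_single, one_smul, one_smul]
  rw [h6, sub_eq_zero] at h5
  exact hgh (Additive.ofMul.injective h5)

end Pool.Agent.Results.MP_66c627_co.TransgressionNontrivial
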